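import Pool.Agent.Q284.PS.Stm0

/-! Brun-Hooley sieve, mean values (job PS-BHB). -/

set_option autoImplicit false
set_option linter.unusedSectionVars false

open Finset

namespace Pool.Agent.Q177.PS.BHB

open Pool.Agent.Q284.PS (nuU nuL)

variable {α : Type}

/-- elementary symmetric function -/
noncomputable def es (x : α → ℝ) (T : Finset α) (i : ℕ) : ℝ :=
  ∑ E ∈ T.powersetCard i, ∏ P ∈ E, x P

theorem es_zero (x : α → ℝ) (T : Finset α) : es x T 0 = 1 := by
  simp [es]

theorem es_empty (x : α → ℝ) (i : ℕ) : es x ∅ (i + 1) = 0 := by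
  unfold es
  rw [Finset.powersetCard_eq_empty.2 (by simp), Finset.sum_empty]

theorem es_nonneg (x : α → ℝ) (T : Finset α) (i : ℕ) (hx : ∀ P ∈ T, 0 ≤ x P) : 0 ≤ es x T i := by
  refine Finset.sum_nonneg fun E hE => Finset.prod_nonneg fun P hP => hx P ?_
  exact (Finset.mem_powersetCard.1 hE).1 hP

theorem es_insert (x : α → ℝ) (T : Finset α) (P : α) [DecidableEq α] (hP : P ∉ T) (i : ℕ) :
    es x (insert P T) (i + 1) = es x T (i + 1) + x P * es x T i := by
  unfold es
  have h0 : ∀ E ∈ T.powersetCard i, P ∉ E := fun E hE h =>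
    hP ((Finset.mem_powersetCard.1 hE).1 h)
  rw [← Nat.succ_eq_add_one, Finset.powersetCard_succ_insert hP, Finset.sum_union,
    Finset.sum_image, Finset.mul_sum]
  · congr 1
    refine Finset.sum_congr rfl fun E hE => ?_
    rw [Finset.prod_insert (h0 E hE)]
  · intro E hE E' hE' h
    have h1 : (insert P E).erase P = (insert P E').erase P := by
      rw [show insert P E = insert P E' from h]
    rwa [Finset.erase_insert (h0 E hE), Finset.erase_insert (h0 E' hE')] at h1
  · rw [Finset.disjoint_left]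
    intro E hE hE'
    obtain ⟨E', _, rfl⟩ := Finset.mem_image.1 hE'
    exact hP ((Finset.mem_powersetCard.1 hE).1 (Finset.mem_insert_self P E'))

theorem binom (s x : ℝ) (hs : 0 ≤ s) (hx : 0 ≤ x) (i : ℕ) :
    s ^ (i + 1) + (i + 1) * x * s ^ i ≤ (s + x) ^ (i + 1) := by
  induction i with
  | zero => simp
  | succ i ih =>
    have h1 : (s + x) ^ (i + 1 + 1) = (s + x) * (s + x) ^ (i + 1) := by ring
    have h2 : (s + x) * (s ^ (i + 1) + (i + 1) * x * s ^ i) ≤ (s + x) * (s + x) ^ (i + 1) :=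
      mul_le_mul_of_nonneg_left ih (by positivity)
    have h3 : 0 ≤ (i + 1) * x ^ 2 * s ^ i := by positivity
    rw [h1]
    push_cast
    refine le_trans ?_ h2
    have h4 : (s + x) * (s ^ (i + 1) + (i + 1) * x * s ^ i) =
        s ^ (i + 1 + 1) + (i + 1 + 1) * x * s ^ (i + 1) + (i + 1) * x ^ 2 * s ^ i := by ring
    rw [h4]
    linarith

theorem es_le (x : α → ℝ) (T : Finset α) (hx : ∀ P ∈ T, 0 ≤ x P) :
    ∀ i : ℕ, es x T i * (i.factorial : ℝ) ≤ (∑ P ∈ T, x P) ^ i := by
  classical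
  induction T using Finset.induction_on with
  | empty =>
    intro i
    cases i with
    | zero => simp [es_zero]
    | succ i => simp [es_empty]
  | insert P T hP ih =>
    intro i
    have hx' : ∀ P ∈ T, 0 ≤ x P := fun Q hQ => hx Q (Finset.mem_insert_of_mem hQ)
    have hxP : 0 ≤ x P := hx P (Finset.mem_insert_self P T)
    cases i with
    | zero => simp [es_zero]
    | succ i =>
      rw [es_insert x T P hP, Finset.sum_insert hP]
      have h1 := ih hx' (i + 1)
      have h2 := ih hx' i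
      have hs : 0 ≤ ∑ P ∈ T, x P := Finset.sum_nonneg hx'
      have h3 := binom (∑ P ∈ T, x P) (x P) hs hxP i
      have h4 : (es x T (i + 1) + x P * es x T i) * ((i + 1).factorial : ℝ) =
          es x T (i + 1) * ((i + 1).factorial : ℝ) +
            (i + 1) * x P * (es x T i * (i.factorial : ℝ)) := by
        rw [Nat.factorial_succ]
        push_cast
        ring
      rw [h4, add_comm (x P)]
      have h5 : (i + 1) * x P * (es x T i * (i.factorial : ℝ)) ≤
          (i + 1) * x P * (∑ P ∈ T, x P) ^ i := mul_le_mul_of_nonneg_left h2 (by positivity)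
      linarith

/-- truncated inclusion-exclusion -/
noncomputable def W (x : α → ℝ) (T : Finset α) (k : ℕ) : ℝ :=
  ∑ i ∈ range (k + 1), (-1) ^ i * es x T i

theorem W_succ (x : α → ℝ) (T : Finset α) (k : ℕ) :
    W x T (k + 1) = W x T k + (-1) ^ (k + 1) * es x T (k + 1) := by
  unfold W
  rw [Finset.sum_range_succ]

theorem W_zero (x : α → ℝ) (T : Finset α) : W x T 0 = 1 := by
  simp [W, es_zero]

theorem W_insert (x : α → ℝ) (T : Finset α) (P : α) [DecidableEq α] (hP : P ∉ T) (k : ℕ) :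
    W x (insert P T) (k + 1) = W x T (k + 1) - x P * W x T k := by
  unfold W
  rw [Finset.sum_range_succ' _ (k + 1), Finset.sum_range_succ' _ (k + 1), es_zero, es_zero]
  have h1 : ∑ i ∈ range (k + 1), (-1) ^ (i + 1) * es x (insert P T) (i + 1) =
      ∑ i ∈ range (k + 1), (-1) ^ (i + 1) * es x T (i + 1) -
        x P * ∑ i ∈ range (k + 1), (-1) ^ i * es x T i := by
    rw [Finset.mul_sum, ← Finset.sum_sub_distrib]
    refine Finset.sum_congr rfl fun i _ => ?_
    rw [es_insert x T P hP]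
    ring
  rw [h1]
  ring

theorem W_alt (x : α → ℝ) (T : Finset α) (hx : ∀ P ∈ T, 0 ≤ x P ∧ x P ≤ 1) :
    ∀ k : ℕ, 0 ≤ (-1) ^ k * (W x T k - ∏ P ∈ T, (1 - x P)) := by
  classical
  induction T using Finset.induction_on with
  | empty =>
    intro k
    have h1 : W x ∅ k = 1 := by
      unfold W
      rw [Finset.sum_range_succ', es_zero]
      simp [es_empty]
    rw [h1]
    simp
  | insert P T hP ih =>
    intro k
    have hx' : ∀ P ∈ T, 0 ≤ x P ∧ x P ≤ 1 := fun Q hQ => hx Q (Finset.mem_insert_of_mem hQ)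
    have hxP := hx P (Finset.mem_insert_self P T)
    cases k with
    | zero =>
      rw [W_zero, pow_zero, one_mul, sub_nonneg]
      refine Finset.prod_le_one (fun Q hQ => ?_) fun Q hQ => ?_
      · linarith [(hx Q hQ).2]
      · linarith [(hx Q hQ).1]
    | succ k =>
      rw [W_insert x T P hP, Finset.prod_insert hP]
      have h1 := ih hx' (k + 1)
      have h2 := W_succ x T k
      have h3 := es_nonneg x T (k + 1) fun Q hQ => (hx' Q hQ).1
      have h4 : W x T k = W x T (k + 1) - (-1) ^ (k + 1) * es x T (k + 1) := by rw [h2]; ring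
      have h5 : ((-1 : ℝ) ^ (k + 1)) * (-1) ^ (k + 1) = 1 := by
        rw [← mul_pow]
        norm_num
      have h6 : (-1 : ℝ) ^ (k + 1) * (W x T (k + 1) - x P * W x T k -
          (1 - x P) * ∏ P ∈ T, (1 - x P)) =
          (1 - x P) * ((-1) ^ (k + 1) * (W x T (k + 1) - ∏ P ∈ T, (1 - x P))) +
          x P * es x T (k + 1) * ((-1) ^ (k + 1) * (-1) ^ (k + 1)) := by
        rw [h4]
        ring
      rw [h6, h5, mul_one]
      have := hxP.1
      have := hxP.2
      have h7 : 0 ≤ 1 - x P := by linarith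
      positivity

theorem powerset_W (x : α → ℝ) (T : Finset α) (k : ℕ) :
    ∑ E ∈ T.powerset, (if E.card ≤ k then ∏ P ∈ E, (-x P) else 0) = W x T k := by
  classical
  rw [← Finset.sum_filter]
  have h1 : ∀ E ∈ T.powerset.filter (fun E => E.card ≤ k), E.card ∈ range (k + 1) := by
    intro E hE
    exact Finset.mem_range.2 (Nat.lt_succ_of_le (Finset.mem_filter.1 hE).2)
  rw [← Finset.sum_fiberwise_of_maps_to h1]
  unfold W
  refine Finset.sum_congr rfl fun i hi => ?_
  have hi' : i ≤ k := Nat.lt_succ_iff.1 (Finset.mem_range.1 hi)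
  unfold es
  rw [Finset.mul_sum]
  refine Finset.sum_congr ?_ fun E hE => ?_
  · ext E
    simp only [Finset.mem_filter, Finset.mem_powerset, Finset.mem_powersetCard]
    constructor
    · rintro ⟨⟨h2, _⟩, h4⟩
      exact ⟨h2, h4⟩
    · rintro ⟨h2, h3⟩
      exact ⟨⟨h2, by omega⟩, h3⟩
  · rw [← (Finset.mem_powersetCard.1 hE).2, Finset.prod_neg]

theorem powerset_es (x : α → ℝ) (T : Finset α) (k : ℕ) :
    ∑ E ∈ T.powerset, (if E.card = k then ∏ P ∈ E, (-x P) else 0) = (-1) ^ k * es x T k := by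
  classical
  rw [← Finset.sum_filter]
  unfold es
  rw [Finset.mul_sum]
  refine Finset.sum_congr ?_ fun E hE => ?_
  · ext E
    simp only [Finset.mem_filter, Finset.mem_powerset, Finset.mem_powersetCard]
  · rw [← (Finset.mem_powersetCard.1 hE).2, Finset.prod_neg]

/-- factorisation over the blocks -/
theorem fac (S : Finset α) (blk : α → ℕ) (J : ℕ) (hJ : ∀ P ∈ S, blk P < J)
    (G : Fin J → Finset α → ℝ) :
    ∑ D ∈ S.powerset, ∏ j : Fin J, G j (D.filter (fun P => blk P = j)) =
      ∏ j : Fin J, ∑ E ∈ (S.filter (fun P => blk P = j)).powerset, G j E := by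
  classical
  rw [Finset.prod_univ_sum]
  refine Finset.sum_nbij' (fun D j => D.filter (fun P => blk P = j))
    (fun p => Finset.univ.biUnion p) ?_ ?_ ?_ ?_ ?_
  · intro D hD
    rw [Fintype.mem_piFinset]
    intro j
    rw [Finset.mem_powerset]
    exact Finset.filter_subset_filter _ (Finset.mem_powerset.1 hD)
  · intro p hp
    rw [Fintype.mem_piFinset] at hp
    rw [Finset.mem_powerset]
    intro P hP
    obtain ⟨j, _, hj⟩ := Finset.mem_biUnion.1 hP
    exact (Finset.mem_filter.1 (Finset.mem_powerset.1 (hp j) hj)).1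
  · intro D hD
    rw [Finset.mem_powerset] at hD
    ext P
    simp only [Finset.mem_biUnion, Finset.mem_univ, true_and, Finset.mem_filter]
    constructor
    · rintro ⟨_, h, _⟩
      exact h
    · intro h
      exact ⟨⟨blk P, hJ P (hD h)⟩, h, rfl⟩
  · intro p hp
    rw [Fintype.mem_piFinset] at hp
    funext j
    ext P
    simp only [Finset.mem_biUnion, Finset.mem_univ, true_and, Finset.mem_filter]
    constructor
    · rintro ⟨⟨i, hi⟩, h2⟩
      have h3 := (Finset.mem_filter.1 (Finset.mem_powerset.1 (hp i) hi)).2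
      have h4 : i = j := Fin.ext (by omega)
      rwa [h4] at hi
    · intro h
      exact ⟨⟨j, h⟩, (Finset.mem_filter.1 (Finset.mem_powerset.1 (hp j) h)).2⟩
  · intro D _
    rfl

open Classical in
theorem term (S : Finset α) (blk : α → ℕ) (J : ℕ) (hJ : ∀ P ∈ S, blk P < J) (x : α → ℝ)
    (p : ℕ → ℕ → Prop) (hp : ∀ i, J ≤ i → p i 0) (D : Finset α) (hD : D ∈ S.powerset) :
    (if ∀ i, p i (D.filter (fun P => blk P = i)).card then (-1 : ℝ) ^ D.card else 0) *
      ∏ P ∈ D, x P =
    ∏ i : Fin J, (if p i (D.filter (fun P => blk P = (i : ℕ))).card then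
      ∏ P ∈ D.filter (fun P => blk P = (i : ℕ)), (-x P) else 0) := by
  have hD' := Finset.mem_powerset.1 hD
  by_cases h : ∀ i, p i (D.filter (fun P => blk P = i)).card
  · rw [if_pos h]
    have h1 : ∀ i : Fin J, (if p i (D.filter (fun P => blk P = (i : ℕ))).card then
      ∏ P ∈ D.filter (fun P => blk P = (i : ℕ)), (-x P) else 0) =
        ∏ P ∈ D.filter (fun P => blk P = (i : ℕ)), (-x P) := fun i => if_pos (h i)
    simp only [h1]
    have h2 : ∏ i : Fin J, ∏ P ∈ D.filter (fun P => blk P = (i : ℕ)), (-x P) =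
        ∏ i ∈ range J, ∏ P ∈ D.filter (fun P => blk P = i), (-x P) :=
      (Finset.prod_range (fun i => ∏ P ∈ D.filter (fun P => blk P = i), (-x P))).symm
    rw [h2, Finset.prod_fiberwise_of_maps_to (fun P hP => Finset.mem_range.2 (hJ P (hD' hP))),
      Finset.prod_neg]
  · rw [if_neg h, zero_mul]
    push Not at h
    obtain ⟨i, hi⟩ := h
    have hiJ : i < J := by
      by_contra hc
      push Not at hc
      have h3 : D.filter (fun P => blk P = i) = ∅ := by
        rw [Finset.filter_eq_empty_iff]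
        intro P hP h4
        have := hJ P (hD' hP)
        omega
      rw [h3, Finset.card_empty] at hi
      exact hi (hp i hc)
    symm
    exact Finset.prod_eq_zero (Finset.mem_univ (⟨i, hiJ⟩ : Fin J)) (if_neg hi)

open Classical in
theorem sum_term (S : Finset α) (blk : α → ℕ) (J : ℕ) (hJ : ∀ P ∈ S, blk P < J) (x : α → ℝ)
    (p : ℕ → ℕ → Prop) (hp : ∀ i, J ≤ i → p i 0) :
    ∑ D ∈ S.powerset, (if ∀ i, p i (D.filter (fun P => blk P = i)).card then
      (-1 : ℝ) ^ D.card else 0) * ∏ P ∈ D, x P =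
    ∏ i : Fin J, ∑ E ∈ (S.filter (fun P => blk P = (i : ℕ))).powerset,
      (if p i E.card then ∏ P ∈ E, (-x P) else 0) := by
  rw [← fac S blk J hJ fun i E => if p i E.card then ∏ P ∈ E, (-x P) else 0]
  exact Finset.sum_congr rfl fun D hD => term S blk J hJ x p hp D hD

theorem ite_inst {p q : Prop} (h : p ↔ q) (dp : Decidable p) (dq : Decidable q) (a : ℝ) :
    @ite ℝ p dp a 0 = @ite ℝ q dq a 0 := by
  by_cases hq : q
  · rw [if_pos hq, if_pos (h.2 hq)]
  · rw [if_neg hq, if_neg fun hp => hq (h.1 hp)]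

theorem one_sub_ge (x : ℝ) (h0 : 0 ≤ x) (h1 : x ≤ 1 / 2) : Real.exp (-(2 * x)) ≤ 1 - x := by
  have h2 := Real.add_one_le_exp (2 * x)
  have h3 : 1 ≤ (1 - x) * Real.exp (2 * x) := by nlinarith
  rw [Real.exp_neg, inv_le_iff_one_le_mul₀ (Real.exp_pos _)]
  exact h3

/-- the constants -/
theorem delta_sum (b J : ℕ) : ∑ j : Fin J, Real.exp 6 *
    (3 ^ (2 * (b + (j : ℕ)) + 1) / ((2 * (b + (j : ℕ)) + 1).factorial : ℝ)) ≤
    2 * Real.exp 6 * Real.exp (3 * Real.exp 1) * Real.exp (-b) := by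
  have h1 : ∀ m : ℕ, (3 : ℝ) ^ m / (m.factorial : ℝ) ≤
      Real.exp (3 * Real.exp 1) * Real.exp (-m) := by
    intro m
    have h2 := Real.pow_div_factorial_le_exp (3 * Real.exp 1) (by positivity) m
    have h3 : (3 * Real.exp 1) ^ m / (m.factorial : ℝ) =
        3 ^ m / (m.factorial : ℝ) * Real.exp m := by
      rw [mul_pow, ← Real.exp_nat_mul, mul_one]
      ring
    rw [h3] at h2
    rw [Real.exp_neg, ← div_eq_mul_inv, le_div_iff₀ (Real.exp_pos _)]
    exact h2
  have h4 : ∀ j : ℕ, Real.exp (-((2 * (b + j) + 1 : ℕ) : ℝ)) ≤ Real.exp (-b) * (1 / 2) ^ j := by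
    intro j
    have h5 : Real.exp (-1) ≤ 1 / 2 := by
      rw [Real.exp_neg]
      have := Real.add_one_le_exp (1 : ℝ)
      rw [inv_le_comm₀ (Real.exp_pos _) (by norm_num)]
      norm_num at this ⊢
      linarith
    have h6 : Real.exp (-(j : ℝ)) ≤ (1 / 2) ^ j := by
      have : -(j : ℝ) = j * (-1) := by ring
      rw [this, Real.exp_nat_mul]
      exact pow_le_pow_left₀ (Real.exp_pos _).le h5 j
    calc Real.exp (-((2 * (b + j) + 1 : ℕ) : ℝ)) ≤ Real.exp (-b + -(j : ℝ)) := by
          refine Real.exp_le_exp.2 ?_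
          push_cast
          have : (0 : ℝ) ≤ b := Nat.cast_nonneg b
          have : (0 : ℝ) ≤ j := Nat.cast_nonneg j
          linarith
      _ = Real.exp (-b) * Real.exp (-(j : ℝ)) := Real.exp_add _ _
      _ ≤ _ := mul_le_mul_of_nonneg_left h6 (Real.exp_pos _).le
  calc ∑ j : Fin J, Real.exp 6 *
        (3 ^ (2 * (b + (j : ℕ)) + 1) / ((2 * (b + (j : ℕ)) + 1).factorial : ℝ))
      ≤ ∑ j : Fin J, Real.exp 6 * (Real.exp (3 * Real.exp 1) *
        (Real.exp (-b) * (1 / 2) ^ (j : ℕ))) := by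
        refine Finset.sum_le_sum fun j _ => ?_
        refine mul_le_mul_of_nonneg_left ?_ (Real.exp_pos _).le
        exact (h1 _).trans (mul_le_mul_of_nonneg_left (h4 j) (Real.exp_pos _).le)
    _ = Real.exp 6 * Real.exp (3 * Real.exp 1) * Real.exp (-b) *
        ∑ j ∈ range J, (1 / 2 : ℝ) ^ j := by
        rw [Finset.sum_range, Finset.mul_sum]
        exact Finset.sum_congr rfl fun j _ => by ring
    _ ≤ Real.exp 6 * Real.exp (3 * Real.exp 1) * Real.exp (-b) * 2 :=
        mul_le_mul_of_nonneg_left (sum_geometric_two_le J) (by positivity)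
    _ = _ := by ring

theorem t_BHB : Pool.Agent.Q284.PS.S_BHB := by
  classical
  obtain ⟨K, hK⟩ : ∃ K : ℝ, K = 2 * Real.exp 6 * Real.exp (3 * Real.exp 1) := ⟨_, rfl⟩
  have hK0 : 0 < K := by rw [hK]; positivity
  refine ⟨(K + 1) * Real.exp K, by positivity, ?_⟩
  intro α S blk b J x hJ hx hb
  -- the blocks
  obtain ⟨T, hT⟩ : ∃ T : Fin J → Finset α, ∀ i, T i = S.filter (fun P => blk P = (i : ℕ)) :=
    ⟨_, fun i => rfl⟩
  have hxT : ∀ i, ∀ P ∈ T i, 0 ≤ x P ∧ x P ≤ 1 / 2 := by
    intro i P hP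
    rw [hT] at hP
    exact hx P (Finset.mem_filter.1 hP).1
  obtain ⟨V, hV⟩ : ∃ V : Fin J → ℝ, ∀ i, V i = ∏ P ∈ T i, (1 - x P) := ⟨_, fun i => rfl⟩
  obtain ⟨U, hU⟩ : ∃ U : Fin J → ℝ, ∀ i, U i = W x (T i) (2 * (b + (i : ℕ))) := ⟨_, fun i => rfl⟩
  obtain ⟨e, he⟩ : ∃ e : Fin J → ℝ, ∀ i, e i = es x (T i) (2 * (b + (i : ℕ)) + 1) :=
    ⟨_, fun i => rfl⟩
  obtain ⟨δ, hδ⟩ : ∃ δ : Fin J → ℝ, ∀ i, δ i = Real.exp 6 *
      (3 ^ (2 * (b + (i : ℕ)) + 1) / ((2 * (b + (i : ℕ)) + 1).factorial : ℝ)) := ⟨_, fun i => rfl⟩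
  have hδ0 : ∀ i, 0 ≤ δ i := fun i => by rw [hδ]; positivity
  have hδs : ∑ i, δ i ≤ K * Real.exp (-b) := by
    have := delta_sum b J
    rw [← hK] at this
    refine le_trans (le_of_eq (Finset.sum_congr rfl fun i _ => hδ i)) this
  have hprod : ∏ P ∈ S, (1 - x P) = ∏ i, V i := by
    rw [← Finset.prod_fiberwise_of_maps_to (t := range J) (g := blk)
      (fun P hP => Finset.mem_range.2 (hJ P hP)), Finset.prod_range]
    exact Finset.prod_congr rfl fun i _ => by rw [hV, hT]
  have hVe : ∀ i, Real.exp (-6) ≤ V i := by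
    intro i
    have h1 : ∑ P ∈ T i, x P ≤ 3 := by
      have := hb i
      rw [hT]
      exact this
    calc Real.exp (-6) ≤ Real.exp (∑ P ∈ T i, -(2 * x P)) := by
          refine Real.exp_le_exp.2 ?_
          rw [Finset.sum_neg_distrib, ← Finset.mul_sum]
          linarith
      _ = ∏ P ∈ T i, Real.exp (-(2 * x P)) := Real.exp_sum _ _
      _ ≤ V i := by
          rw [hV]
          refine Finset.prod_le_prod (fun P _ => (Real.exp_pos _).le) fun P hP => ?_
          exact one_sub_ge _ (hxT i P hP).1 (hxT i P hP).2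
  have hV0 : ∀ i, 0 < V i := fun i => (Real.exp_pos _).trans_le (hVe i)
  have he0 : ∀ i, 0 ≤ e i := fun i => by
    rw [he]
    exact es_nonneg _ _ _ fun P hP => (hxT i P hP).1
  have hUV : ∀ i, V i ≤ U i := by
    intro i
    have h1 := W_alt x (T i) (fun P hP => ⟨(hxT i P hP).1, by linarith [(hxT i P hP).2]⟩)
      (2 * (b + (i : ℕ)))
    rw [pow_mul, neg_one_sq, one_pow, one_mul, ← hV, ← hU] at h1
    linarith
  have hUe : ∀ i, U i ≤ V i + e i := by
    intro i
    have h1 := W_alt x (T i) (fun P hP => ⟨(hxT i P hP).1, by linarith [(hxT i P hP).2]⟩)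
      (2 * (b + (i : ℕ)) + 1)
    rw [W_succ, pow_succ, pow_mul, neg_one_sq, one_pow, one_mul, ← hV, ← hU, ← he] at h1
    linarith
  have heδ : ∀ i, e i ≤ δ i * V i := by
    intro i
    have h1 : ∑ P ∈ T i, x P ≤ 3 := by
      have := hb i
      rw [hT]
      exact this
    have h0 : 0 ≤ ∑ P ∈ T i, x P := Finset.sum_nonneg fun P hP => (hxT i P hP).1
    have h2 := es_le x (T i) (fun P hP => (hxT i P hP).1) (2 * (b + (i : ℕ)) + 1)
    rw [← he] at h2
    have h3 : e i ≤ 3 ^ (2 * (b + (i : ℕ)) + 1) / ((2 * (b + (i : ℕ)) + 1).factorial : ℝ) := by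
      rw [le_div_iff₀ (by positivity)]
      exact h2.trans (pow_le_pow_left₀ h0 h1 _)
    have h4 : 1 ≤ Real.exp 6 * V i := by
      have h5 := mul_le_mul_of_nonneg_left (hVe i) (Real.exp_pos 6).le
      rwa [← Real.exp_add, add_neg_cancel, Real.exp_zero] at h5
    have h6 : 0 ≤ (3 : ℝ) ^ (2 * (b + (i : ℕ)) + 1) /
        ((2 * (b + (i : ℕ)) + 1).factorial : ℝ) := by positivity
    calc e i ≤ 3 ^ (2 * (b + (i : ℕ)) + 1) / ((2 * (b + (i : ℕ)) + 1).factorial : ℝ) * 1 := by
          rw [mul_one]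
          exact h3
      _ ≤ 3 ^ (2 * (b + (i : ℕ)) + 1) / ((2 * (b + (i : ℕ)) + 1).factorial : ℝ) *
          (Real.exp 6 * V i) := mul_le_mul_of_nonneg_left h4 h6
      _ = δ i * V i := by
          rw [hδ]
          ring
  -- the upper sum
  have hA : ∑ D ∈ S.powerset, nuU blk b D * ∏ P ∈ D, x P = ∏ i, U i := by
    have h1 := sum_term S blk J hJ x (fun i c => c ≤ 2 * (b + i)) (fun i _ => Nat.zero_le _)
    refine Eq.trans ?_ (h1.trans ?_)
    · rfl
    · refine Finset.prod_congr rfl fun i _ => ?_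
      rw [hU, hT]
      exact Eq.trans (Finset.sum_congr rfl fun E _ => ite_inst Iff.rfl _ _ _)
        (powerset_W x _ _)
  -- the extra terms
  have hL : ∀ j : Fin J, ∑ D ∈ S.powerset,
      (if (D.filter (fun y => blk y = (j : ℕ))).card = 2 * (b + (j : ℕ)) + 1 ∧
        ∀ i : ℕ, i ≠ (j : ℕ) → (D.filter (fun y => blk y = i)).card ≤ 2 * (b + i) then
        (-1 : ℝ) ^ D.card else 0) * ∏ P ∈ D, x P = -(e j * ∏ i ∈ Finset.univ.erase j, U i) := by
    intro j
    have h1 := sum_term S blk J hJ x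
      (fun i c => if i = (j : ℕ) then c = 2 * (b + (j : ℕ)) + 1 else c ≤ 2 * (b + i))
      (fun i hi => by
        have h2 : i ≠ (j : ℕ) := by
          have := j.2
          omega
        simp only [if_neg h2]
        exact Nat.zero_le _)
    refine Eq.trans ?_ (h1.trans ?_)
    · refine Finset.sum_congr rfl fun D _ => ?_
      congr 1
      refine if_congr ?_ rfl rfl
      constructor
      · rintro ⟨h3, h4⟩ i
        by_cases hij : i = (j : ℕ)
        · subst hij
          rw [if_pos rfl]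
          exact h3
        · rw [if_neg hij]
          exact h4 i hij
      · intro h3
        refine ⟨?_, fun i hi => ?_⟩
        · have := h3 (j : ℕ)
          rwa [if_pos rfl] at this
        · have := h3 i
          rwa [if_neg hi] at this
    · rw [← Finset.mul_prod_erase Finset.univ _ (Finset.mem_univ j)]
      refine Eq.trans (congrArg₂ (fun u v : ℝ => u * v) ?_
        (Finset.prod_congr rfl fun i hi => ?_)) (neg_mul (e j) _)
      · have h8 : ∑ E ∈ (S.filter (fun P => blk P = (j : ℕ))).powerset,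
            (if E.card = 2 * (b + (j : ℕ)) + 1 then ∏ P ∈ E, (-x P) else 0) = -e j := by
          rw [powerset_es, pow_succ, pow_mul, neg_one_sq, one_pow, he, hT]
          ring
        refine Eq.trans (Finset.sum_congr rfl fun E _ => ite_inst ?_ _ _ _) h8
        rw [if_pos rfl]
      · have h7 : ¬ (i : ℕ) = (j : ℕ) := fun h => (Finset.mem_erase.1 hi).1 (Fin.ext h)
        rw [hU, hT]
        refine Eq.trans (Finset.sum_congr rfl fun E _ => ite_inst ?_ _ _ _)
          (powerset_W x _ _)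
        rw [if_neg h7]
  have hL2 : ∑ D ∈ S.powerset, nuU blk b D * ∏ P ∈ D, x P -
      ∑ D ∈ S.powerset, nuL blk b J D * ∏ P ∈ D, x P =
      ∑ j, e j * ∏ i ∈ Finset.univ.erase j, U i := by
    have h1 : ∀ D, nuL blk b J D * ∏ P ∈ D, x P = nuU blk b D * ∏ P ∈ D, x P +
        ∑ j : Fin J, (if (D.filter (fun y => blk y = (j : ℕ))).card = 2 * (b + (j : ℕ)) + 1 ∧
        ∀ i : ℕ, i ≠ (j : ℕ) → (D.filter (fun y => blk y = i)).card ≤ 2 * (b + i) then
        (-1 : ℝ) ^ D.card else 0) * ∏ P ∈ D, x P := by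
      intro D
      unfold nuL
      rw [add_mul, Finset.sum_range, Finset.sum_mul]
    simp only [h1]
    rw [Finset.sum_add_distrib, Finset.sum_comm, Finset.sum_congr rfl fun j _ => hL j]
    rw [Finset.sum_neg_distrib]
    ring
  have hU0 : ∀ i, 0 < U i := fun i => (hV0 i).trans_le (hUV i)
  have hPU0 : 0 < ∏ i, U i := Finset.prod_pos fun i _ => hU0 i
  have hPV0 : 0 < ∏ i, V i := Finset.prod_pos fun i _ => hV0 i
  have hPU : ∏ i, U i ≤ Real.exp K * ∏ i, V i := by
    calc ∏ i, U i ≤ ∏ i, (Real.exp (δ i) * V i) := by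
          refine Finset.prod_le_prod (fun i _ => (hU0 i).le) fun i _ => ?_
          have h1 := Real.add_one_le_exp (δ i)
          have h2 := hUe i
          have h3 := heδ i
          have h4 := hV0 i
          nlinarith
      _ = Real.exp (∑ i, δ i) * ∏ i, V i := by
          rw [Finset.prod_mul_distrib, ← Real.exp_sum]
      _ ≤ Real.exp K * ∏ i, V i := by
          refine mul_le_mul_of_nonneg_right (Real.exp_le_exp.2 ?_) hPV0.le
          refine hδs.trans ?_
          have h5 : Real.exp (-(b : ℝ)) ≤ 1 := Real.exp_le_one_iff.2 (by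
            have : (0 : ℝ) ≤ b := Nat.cast_nonneg b
            linarith)
          nlinarith
  refine ⟨?_, ?_⟩
  · rw [hA, hprod]
    refine hPU.trans ?_
    refine mul_le_mul_of_nonneg_right ?_ hPV0.le
    have := Real.exp_pos K
    nlinarith
  · rw [hL2, hprod]
    calc ∑ j, e j * ∏ i ∈ Finset.univ.erase j, U i
        ≤ ∑ j, δ j * ∏ i, U i := by
          refine Finset.sum_le_sum fun j _ => ?_
          have h1 : 0 ≤ ∏ i ∈ Finset.univ.erase j, U i := Finset.prod_nonneg fun i _ => (hU0 i).le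
          calc e j * ∏ i ∈ Finset.univ.erase j, U i
              ≤ (δ j * U j) * ∏ i ∈ Finset.univ.erase j, U i := by
                refine mul_le_mul_of_nonneg_right ?_ h1
                exact (heδ j).trans (mul_le_mul_of_nonneg_left (hUV j) (hδ0 j))
            _ = δ j * ∏ i, U i := by
                rw [← Finset.mul_prod_erase Finset.univ U (Finset.mem_univ j)]
                ring
      _ = (∑ j, δ j) * ∏ i, U i := by rw [Finset.sum_mul]
      _ ≤ (K * Real.exp (-b)) * (Real.exp K * ∏ i, V i) := by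
          refine mul_le_mul hδs hPU hPU0.le (by positivity)
      _ ≤ (K + 1) * Real.exp K * Real.exp (-b) * ∏ i, V i := by
          have h1 : 0 ≤ Real.exp K * Real.exp (-b) * ∏ i, V i := by positivity
          nlinarith

end Pool.Agent.Q177.PS.BHB
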