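import Pool.Agent.Q284.PS.Stm2

/-! Roots of the local factor on the unit circle (job PS-LOC2). -/

set_option autoImplicit false
set_option linter.unusedSectionVars false

open Finset Polynomial ComplexConjugate

namespace Pool.Agent.Q177.PS.LOC2

/-- the real function -/
noncomputable def g (d : ℕ) (a : ℂ) (φ θ : ℝ) : ℝ :=
  Real.cos ((d * θ + φ) / 2) -
    (a * Complex.exp (((-(((d : ℝ) - 2) * θ + φ) / 2 : ℝ) : ℂ) * Complex.I)).re

theorem g_cont (d : ℕ) (a : ℂ) (φ : ℝ) : Continuous (g d a φ) := by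
  unfold g
  refine Continuous.sub (by fun_prop) (Complex.continuous_re.comp ?_)
  fun_prop

theorem re_le (a : ℂ) (ha : ‖a‖ ≤ 1 / 4) (t : ℝ) :
    |(a * Complex.exp ((t : ℂ) * Complex.I)).re| ≤ 1 / 4 := by
  refine (Complex.abs_re_le_norm _).trans ?_
  rw [norm_mul, Complex.norm_exp_ofReal_mul_I, mul_one]
  exact ha

/-- the value of the polynomial on the unit circle -/
theorem val (d : ℕ) (hd : 4 ≤ d) (a : ℂ) (φ θ : ℝ)
    (hφ : Complex.exp ((φ : ℂ) * Complex.I) = (-1) ^ d) :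
    1 - a * Complex.exp ((θ : ℂ) * Complex.I) -
      ((-1) ^ d * conj a) * Complex.exp ((θ : ℂ) * Complex.I) ^ (d - 1) +
      (-1) ^ d * Complex.exp ((θ : ℂ) * Complex.I) ^ d =
    2 * Complex.exp ((((d : ℝ) * θ + φ) / 2 : ℝ) * Complex.I) * (g d a φ θ : ℂ) := by
  obtain ⟨n, rfl⟩ : ∃ n, d = n + 1 := ⟨d - 1, by omega⟩
  have h1 : n + 1 - 1 = n := by omega
  rw [h1, ← hφ, ← Complex.exp_nat_mul, ← Complex.exp_nat_mul]
  unfold g
  push_cast
  have e1 : ((Complex.re (a * Complex.exp (-(((n : ℂ) + 1 - 2) * (θ : ℂ) + (φ : ℂ)) / 2 *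
      Complex.I)) : ℝ) : ℂ) = (a * Complex.exp (-(((n : ℂ) + 1 - 2) * (θ : ℂ) + (φ : ℂ)) / 2 *
      Complex.I) + conj a * Complex.exp ((((n : ℂ) + 1 - 2) * (θ : ℂ) + (φ : ℂ)) / 2 *
      Complex.I)) / 2 := by
    have h2 : conj a * Complex.exp ((((n : ℂ) + 1 - 2) * (θ : ℂ) + (φ : ℂ)) / 2 *
      Complex.I) = conj (a * Complex.exp (-(((n : ℂ) + 1 - 2) * (θ : ℂ) + (φ : ℂ)) / 2 *
      Complex.I)) := by
      rw [map_mul, ← Complex.exp_conj]
      congr 2
      simp only [map_mul, map_div₀, map_neg, map_add, map_sub, map_natCast, map_one,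
        Complex.conj_ofReal, Complex.conj_I, map_ofNat]
      ring
    rw [h2, Complex.re_eq_add_conj]
  rw [e1, Complex.cos]
  have e2 : ∀ u v w : ℂ, u + v = w → Complex.exp u * Complex.exp v = Complex.exp w := by
    intro u v w h
    rw [← Complex.exp_add, h]
  have e3 := e2 ((((n : ℂ) + 1) * (θ : ℂ) + (φ : ℂ)) / 2 * Complex.I)
    ((((n : ℂ) + 1) * (θ : ℂ) + (φ : ℂ)) / 2 * Complex.I)
    ((φ : ℂ) * Complex.I + ((n : ℂ) + 1) * ((θ : ℂ) * Complex.I)) (by ring)
  have e4 := e2 ((((n : ℂ) + 1) * (θ : ℂ) + (φ : ℂ)) / 2 * Complex.I)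
    (-((((n : ℂ) + 1) * (θ : ℂ) + (φ : ℂ)) / 2) * Complex.I) 0 (by ring)
  have e5 := e2 ((((n : ℂ) + 1) * (θ : ℂ) + (φ : ℂ)) / 2 * Complex.I)
    (-(((n : ℂ) + 1 - 2) * (θ : ℂ) + (φ : ℂ)) / 2 * Complex.I) ((θ : ℂ) * Complex.I) (by ring)
  have e6 := e2 ((((n : ℂ) + 1) * (θ : ℂ) + (φ : ℂ)) / 2 * Complex.I)
    ((((n : ℂ) + 1 - 2) * (θ : ℂ) + (φ : ℂ)) / 2 * Complex.I)
    ((φ : ℂ) * Complex.I + (n : ℂ) * ((θ : ℂ) * Complex.I)) (by ring)
  rw [Complex.exp_zero] at e4
  rw [Complex.exp_add] at e3 e6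
  push_cast
  linear_combination (-1 : ℂ) * e3 - e4 + a * e5 + conj a * e6

theorem t_LOC2 : Pool.Agent.Q284.PS.S_LOC2 := by
  intro d a hd ha
  have hd0 : (0 : ℝ) < d := by
    have : 0 < d := by omega
    exact_mod_cast this
  -- the phase
  obtain ⟨φ, hφ⟩ : ∃ φ : ℝ, Complex.exp ((φ : ℂ) * Complex.I) = (-1) ^ d := by
    rcases Nat.even_or_odd d with h | h
    · refine ⟨0, ?_⟩
      rw [h.neg_one_pow]
      simp
    · refine ⟨Real.pi, ?_⟩
      rw [h.neg_one_pow, Complex.exp_pi_mul_I]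
  obtain ⟨θ, hθ⟩ : ∃ θ : ℕ → ℝ, ∀ k, θ k = (2 * Real.pi * k - φ) / d := ⟨_, fun k => rfl⟩
  have hθs : ∀ k, θ (k + 1) = θ k + 2 * Real.pi / d := by
    intro k
    rw [hθ, hθ]
    push_cast
    ring
  have hpos : ∀ k, 0 < (-1) ^ k * g d a φ (θ k) := by
    intro k
    have h1 : (d * θ k + φ) / 2 = k * Real.pi := by
      rw [hθ]
      field_simp
      ring
    have h2 := re_le a ha (-(((d : ℝ) - 2) * θ k + φ) / 2)
    unfold g
    rw [h1, Real.cos_nat_mul_pi]
    have h3 : ((-1 : ℝ) ^ k) * (-1) ^ k = 1 := by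
      rw [← mul_pow]
      norm_num
    have h4 : |((-1 : ℝ) ^ k)| = 1 := by
      rw [abs_pow, abs_neg, abs_one, one_pow]
    have h5 : |(-1) ^ k * (a * Complex.exp (((-(((d : ℝ) - 2) * θ k + φ) / 2 : ℝ) : ℂ) *
        Complex.I)).re| ≤ 1 / 4 := by
      rw [abs_mul, h4, one_mul]
      exact h2
    have h6 := (abs_le.1 h5).2
    rw [mul_sub, h3]
    linarith
  have hz : ∀ k, ∃ t : ℝ, θ k < t ∧ t < θ (k + 1) ∧ g d a φ t = 0 := by
    intro k
    have hlt : θ k < θ (k + 1) := by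
      rw [hθs]
      have : 0 < 2 * Real.pi / d := by positivity
      linarith
    have h1 := hpos k
    have h2 := hpos (k + 1)
    have hc : ContinuousOn (fun t => (-1) ^ k * g d a φ t) (Set.Icc (θ k) (θ (k + 1))) :=
      (continuous_const.mul (g_cont d a φ)).continuousOn
    have h3 : (0 : ℝ) ∈ Set.Ioo ((fun t => (-1) ^ k * g d a φ t) (θ (k + 1)))
        ((fun t => (-1) ^ k * g d a φ t) (θ k)) := by
      refine ⟨?_, h1⟩
      have h4 : (-1 : ℝ) ^ (k + 1) * g d a φ (θ (k + 1)) =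
          -((-1) ^ k * g d a φ (θ (k + 1))) := by ring
      rw [h4] at h2
      simp only
      linarith
    obtain ⟨t, ht, ht0⟩ := intermediate_value_Ioo' hlt.le hc h3
    refine ⟨t, ht.1, ht.2, ?_⟩
    have h5 : ((-1 : ℝ) ^ k) ≠ 0 := pow_ne_zero _ (by norm_num)
    exact (mul_eq_zero.1 ht0).resolve_left h5
  obtain ⟨t, ht⟩ : ∃ t : ℕ → ℝ, ∀ k, θ k < t k ∧ t k < θ (k + 1) ∧ g d a φ (t k) = 0 :=
    ⟨fun k => (hz k).choose, fun k => (hz k).choose_spec⟩
  have hmono : StrictMono t := by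
    refine strictMono_nat_of_lt_succ fun k => ?_
    exact (ht k).2.1.trans (ht (k + 1)).1
  obtain ⟨ρ, hρ⟩ : ∃ ρ : ℕ → ℂ, ∀ k, ρ k = Complex.exp ((t k : ℂ) * Complex.I) :=
    ⟨_, fun k => rfl⟩
  have hρn : ∀ k, ‖ρ k‖ = 1 := fun k => by
    rw [hρ, Complex.norm_exp_ofReal_mul_I]
  have hρ0 : ∀ k, ρ k ≠ 0 := fun k => by
    rw [hρ]
    exact Complex.exp_ne_zero _
  have hθk : ∀ k : ℕ, θ k = θ 0 + 2 * Real.pi / d * k := by
    intro k
    rw [hθ, hθ]
    push_cast
    ring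
  have hinj : ∀ j k : ℕ, j < d → k < d → ρ j = ρ k → j = k := by
    intro j k hj hk h
    rw [hρ, hρ, Complex.exp_eq_exp_iff_exists_int] at h
    obtain ⟨m, hm⟩ := h
    have h1 : t j = t k + m * (2 * Real.pi) := by
      have h2 := congrArg Complex.im hm
      have h3 : ((t j : ℂ) * Complex.I).im = t j := by simp
      have h4 : ((t k : ℂ) * Complex.I + (m : ℂ) * (2 * Real.pi * Complex.I)).im =
          t k + m * (2 * Real.pi) := by simp
      rw [h3, h4] at h2
      exact h2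
    have hr : ∀ i : ℕ, i < d → θ 0 < t i ∧ t i < θ 0 + 2 * Real.pi := by
      intro i hi
      refine ⟨?_, ?_⟩
      · have := (ht i).1
        rw [hθk i] at this
        have h5 : 0 ≤ 2 * Real.pi / d * i := by positivity
        linarith
      · have := (ht i).2.1
        rw [hθk (i + 1)] at this
        have h6 : ((i + 1 : ℕ) : ℝ) ≤ d := by exact_mod_cast hi
        have h7 : 2 * Real.pi / d * ((i + 1 : ℕ) : ℝ) ≤ 2 * Real.pi / d * d :=
          mul_le_mul_of_nonneg_left h6 (by positivity)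
        have h8 : 2 * Real.pi / d * d = 2 * Real.pi := by field_simp
        linarith
    have h9 := hr j hj
    have h10 := hr k hk
    have hm0 : m = 0 := by
      have hp := Real.pi_pos
      by_contra hne
      rcases lt_or_gt_of_ne hne with h | h
      · have h11 : (m : ℝ) ≤ -1 := by exact_mod_cast (by omega : m ≤ -1)
        nlinarith
      · have h11 : (1 : ℝ) ≤ m := by exact_mod_cast (by omega : 1 ≤ m)
        nlinarith
    rw [hm0] at h1
    simp only [Int.cast_zero, zero_mul, add_zero] at h1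
    exact hmono.injective h1
  -- the polynomials
  obtain ⟨P, hP⟩ : ∃ P : ℂ[X], P = 1 - C a * X - C ((-1) ^ d * conj a) * X ^ (d - 1) +
      C ((-1) ^ d) * X ^ d := ⟨_, rfl⟩
  obtain ⟨α, hα⟩ : ∃ α : Fin d → ℂ, ∀ j, α j = (ρ j)⁻¹ := ⟨_, fun j => rfl⟩
  obtain ⟨Q, hQ⟩ : ∃ Q : ℂ[X], Q = ∏ j, (1 - C (α j) * X) := ⟨_, rfl⟩
  have hPev : ∀ k, P.eval (ρ k) = 0 := by
    intro k
    have h1 := val d hd a φ (t k) hφ
    rw [(ht k).2.2] at h1
    rw [hP]
    simp only [eval_add, eval_sub, eval_one, eval_mul, eval_C, eval_X, eval_pow]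
    rw [hρ, h1]
    simp
  have hQev : ∀ k : ℕ, k < d → Q.eval (ρ k) = 0 := by
    intro k hk
    rw [hQ, eval_prod]
    refine Finset.prod_eq_zero (Finset.mem_univ (⟨k, hk⟩ : Fin d)) ?_
    simp only [eval_sub, eval_one, eval_mul, eval_C, eval_X]
    rw [hα]
    simp only
    rw [inv_mul_cancel₀ (hρ0 k), sub_self]
  have hPd : P.natDegree ≤ d := by
    rw [hP]
    have n1 : (1 - C a * X : ℂ[X]).natDegree ≤ d := by
      refine (natDegree_sub_le _ _).trans (max_le ?_ ?_)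
      · simp
      · exact ((natDegree_C_mul_le a X).trans natDegree_X_le).trans (by omega)
    refine (natDegree_add_le _ _).trans (max_le ?_ (natDegree_C_mul_X_pow_le _ _))
    refine (natDegree_sub_le _ _).trans (max_le n1 ?_)
    exact (natDegree_C_mul_X_pow_le _ _).trans (by omega)
  have hfac : ∀ j : Fin d, (1 - C (α j) * X : ℂ[X]).natDegree ≤ 1 := by
    intro j
    refine (natDegree_sub_le _ _).trans
      (max_le ?_ ((natDegree_C_mul_le _ X).trans natDegree_X_le))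
    simp
  have hQd : Q.natDegree ≤ d := by
    rw [hQ]
    refine (natDegree_prod_le _ _).trans ?_
    refine (Finset.sum_le_sum fun j _ => hfac j).trans ?_
    simp
  classical
  have hcard : (insert 0 ((range d).image ρ)).card = d + 1 := by
    rw [Finset.card_insert_of_notMem, Finset.card_image_of_injOn, Finset.card_range]
    · intro j hj k hk h
      exact hinj j k (Finset.mem_range.1 hj) (Finset.mem_range.1 hk) h
    · intro h
      obtain ⟨k, _, hk⟩ := Finset.mem_image.1 h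
      exact hρ0 k hk
  have hPQ : P = Q := by
    refine Polynomial.eq_of_natDegree_lt_card_of_eval_eq' P Q (insert 0 ((range d).image ρ))
      (fun i hi => ?_) ?_
    · rcases Finset.mem_insert.1 hi with rfl | hi
      · have h1 : P.eval 0 = 1 := by
          rw [hP]
          simp only [eval_add, eval_sub, eval_one, eval_mul, eval_C, eval_X, eval_pow]
          rw [zero_pow (by omega), zero_pow (by omega)]
          ring
        have h2 : Q.eval 0 = 1 := by
          rw [hQ, eval_prod]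
          simp
        rw [h1, h2]
      · obtain ⟨k, hk, rfl⟩ := Finset.mem_image.1 hi
        rw [hPev, hQev k (Finset.mem_range.1 hk)]
    · rw [hcard]
      exact Nat.lt_succ_of_le (max_le hPd hQd)
  refine ⟨α, fun j => ?_, ?_, ?_⟩
  · rw [hα, norm_inv, hρn, inv_one]
  · rw [← hP, hPQ, hQ]
  · have h1 : P.coeff d = (-1) ^ d := by
      rw [hP]
      simp only [coeff_add, coeff_sub, coeff_C_mul, coeff_X_pow, coeff_one, coeff_X]
      rw [if_neg (by omega), if_neg (by omega), if_neg (by omega), if_pos trivial]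
      ring
    have h2 : Q.coeff d = ∏ j, (-α j) := by
      have h3 := coeff_prod_of_natDegree_le (s := (Finset.univ : Finset (Fin d)))
        (fun j => (1 - C (α j) * X : ℂ[X])) 1 (fun j _ => hfac j)
      rw [Finset.card_univ, Fintype.card_fin, mul_one, ← hQ] at h3
      rw [h3]
      refine Finset.prod_congr rfl fun j _ => ?_
      simp [coeff_one]
    rw [hPQ, h2, Finset.prod_neg, Finset.card_univ, Fintype.card_fin] at h1
    have h4 : ((-1 : ℂ) ^ d) ≠ 0 := pow_ne_zero _ (by norm_num)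
    exact mul_left_cancel₀ h4 (by rw [h1, mul_one])

end Pool.Agent.Q177.PS.LOC2
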